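import Pool.Agent.Z15.T.Main

/-!
# Varieties of any dimension which are fibred in curves with decomposable Jacobian varieties

Let `X` be a smooth projective complex variety of dimension `n` with a rational map `X ⇢ Y` to a
variety of dimension `n - 1`, with irreducible general fibres. Let `C` be the generic fibre, a curve of
any genus over the function field `L = ℂ(Y)`. Suppose that the Jacobian variety of `C` is isogenous to a
product of abelian varieties which are direct factors, up to isogeny, of the Jacobian varieties of
curves `H 1, ..., H r` over `L`, and that the total spaces of the families `H i`, which are varieties of
dimension `n`, are uniruled. (`X` itself is not uniruled in general: if `X` is a surface and the `H i` are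
rational elliptic surfaces then `X` can be a surface of general type.) Then `CH_0(X)` is supported on a
divisor, up to torsion. The same is true if the total spaces of the `H i` are not uniruled but are
dominated by varieties which satisfy the hypotheses again, with other fibrations, and so on.
The class of function fields defined in this way is `Decomposable` (`Pool/Agent/Z15/T/Defs.lean`).

Precisely, let `Ω` be an algebraically closed field of transcendence degree `n` over `ℂ`, and let
`σ : K → Ω` be any embedding of the function field `K` of `X` (for instance, `Ω` can be an algebraic
closure of `K`, and `σ` is the generic point of `X`). We prove that a positive multiple of the point `σ`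
of `X × Spec Ω` is rationally equivalent to a cycle which is supported on `D × Spec Ω` for a divisor `D`
on `X` (`Rat`, from `Pool/Agent/N162/BC/Defs.lean`). By the theorem of Bloch and Srinivas a positive
multiple of the diagonal of `X × X` is then rationally equivalent to a sum of cycles on `D × X` and
`X × D'`, so `h^{n,0}(X) = 0`, and there is a dense open subset `U` of `X` such that the restriction
`H^n(X, ℚ) → H^n(U, ℚ)` is zero: Grothendieck's conjecture for `i = n`. (This standard consequence
is not formalised here.) For the surfaces in the class it is Bloch's conjecture.

Proof. Let `C' → C` be the covering and `q i : C' → H i` the maps which give the decomposition. The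
pullback of zero-cycles under `C' → H i` respects rational equivalence (`preL_mem`), so by induction
the correspondences `C ← C' → H i ← C' → C` map the generic point of `X` to torsion classes modulo
cycles on `D × Spec Ω`. A multiple of the generic point of `C` and a linear combination of these
cycles have the same traces, for all regular differentials on `C`, and so they are rationally
equivalent on `C` modulo cycles with coordinates algebraic over `L` (`Pool.Agent.N162.BC.fibre`).
-/

set_option autoImplicit false

open FF Pool.Agent.Z15.T
open Pool.Agent.N162.BC (Rat)

namespace Pool.Agent.Results.MP_1c689d_ag.DecomposableFibrations

/-- **The zero-cycles of all varieties with decomposable function fields are supported on a divisor.**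
`K` is the function field of a variety `X` of dimension `n` which belongs to the class `Decomposable`,
and `σ` is a point of `X × Spec Ω` over the generic point of `X`. -/
theorem result {K : Type} [Field K] [Algebra ℂ K] (h : Decomposable K) {n : ℕ}
    (hn : Algebra.trdeg ℂ K = (n : ℕ)) {Ω : Type} [Field Ω] [Algebra ℂ Ω] [IsAlgClosed Ω]
    (hΩ : Algebra.trdeg ℂ Ω = (n : ℕ)) (σ : K →ₐ[ℂ] Ω) :
    ∃ N : ℕ, 0 < N ∧ Finsupp.single σ (N : ℤ) ∈ Rat K Ω :=
  main h hn hΩ σ

end Pool.Agent.Results.MP_1c689d_ag.DecomposableFibrations
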