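import Pool.Agent.Z15.R.Main

/-!
# Iterated fibrations in curves with decomposable Jacobian varieties: zero-cycles supported in dimension
# `r`, and the coniveau of the cohomology in all degrees `i > r`

Fix a number `r`. The class `Cl ℂ r` of function fields `K` of complex varieties `X` is defined in
`Pool/Agent/Z15/R/Defs.lean`. It is the smallest class with the following properties.

* It contains all the varieties of dimension at most `r`.
* If `X' ⇢ X` is generically finite and dominant, and `X'` is in the class, then `X` is in the class.
* Let `X ⇢ Y` be dominant, such that the differences of two points of the generic fibre are torsion in the
  group of zero-cycles modulo rational equivalence, also after extensions of the field (for example,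
  the general fibres are rational). If `Y` is in the class then `X` is in the class.
* Let `X ⇢ Y` be a fibration in curves of any genus, and let `C` be the generic fibre, a geometrically
  irreducible curve over `L = ℂ(Y)`. Suppose that there are curves `C'`, `H 1, ..., H s` over `L` with maps
  `p : C' → C` and `q i : C' → H i`, such that `∑ c i p_* q_i^* q_i_* p^*` is the identity on the regular
  differentials of `C`, for some rational numbers `c i`; in other words, the Jacobian variety of `C` is
  isogenous to a product of factors of the Jacobian varieties of the `H i`. If `Y` and the total spaces
  of the families `H i` (varieties of the dimension of `X`) are in the class then `X` is in the class.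

The number of steps is not bounded, the fibrations of the `H i` which are used in the next steps are
other fibrations in general, and the fibres and the bases are of any genus and of any Kodaira dimension. For
instance, let `X` be a Galois covering of `Y × ℙ¹` with the group `(ℤ/2)^m`, obtained by adjoining the
square roots of functions `f 1, ..., f m`. Then it is enough to know that `Y` and the double coverings of
`Y × ℙ¹` given by the square roots of the products of some of the `f j` are in the class. So one gets many
varieties of general type, of all dimensions, with small `r`.

**Theorem.** Let `X` be in the class, and let `Ω` be an algebraically closed field which contains `ℂ`, of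
infinite transcendence degree over `ℂ`. Then a positive multiple of each zero-cycle `c` of `X × Spec Ω` (at
points over the generic point of `X`) is, modulo torsion and modulo the group `Rat`, a sum of cycles `c i`
which are invariant under the automorphisms of `Ω` over fields `F i` of transcendence degree at most `r`
over `ℂ`. Here `Rat` is generated by the images of the divisors of functions on curves; its elements are
rationally equivalent to zero on every complete model.

So the class of `c i` in `CH_0(X × Spec Ω) ⊗ ℚ` is defined over the algebraic closure of `F i`
(specialisation), and `CH_0(X × Spec Ω) ⊗ ℚ` is supported on a closed subset `W` of `X` of dimension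
at most `r`. By Bloch and Srinivas a positive multiple of the diagonal of a smooth projective model is
rationally equivalent to a cycle on `X × W` plus a cycle on `D × X`, `D` a divisor. Therefore
`h^{i,0}(X) = 0` for all `i > r`, and for ALL `i > r` there is a dense open subset `U` of `X` such that
`H^i(X, ℚ) → H^i(U, ℚ)` is zero (for `i > r` the cohomology `H^i` of a resolution of `W` is supported on a
hyperplane section): Grothendieck's conjecture in all degrees `i > r`. These standard consequences
are not formalised.

The theorem `DecomposableFibrations` in this folder is about `i = n = dim X` only (that is `r = n - 1`), where
no condition on `Y` is necessary, and its conclusion is weaker: it does not see the cycles on divisors. The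
new point is that the cycles are never moved to a divisor: all the relations hold exactly on all
complete models.

Proof. `Rat` is compatible with direct and inverse images under generically finite maps (`t_R_PUSH`,
`t_R_PULL`). Let `c` be a cycle on the generic fibre `C` over the algebraic closure `Ω₁` of `Ω₀(C)`,
`Ω₀ ⊇ L`, with vanishing traces; it is the divisor of a function up to points with coordinates algebraic over
`L` (`Pool.Agent.N162.BC.fibre`); hence for two embeddings of `Ω₁` into `Ω` over the algebraic closure
of `L` the difference of the images of `c` is in `Rat` (`t_R_DIFF`). So `m [σ] - ∑ e i corr i [σ]` does
not depend on the point `σ` of the curve `C` up to `Rat` (`t_R_ASM`); the cycles `corr i [σ]` are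
inverse images of cycles on the `H i`, and the base point can be chosen on a multisection (`t_R_PT`).
The parts were proved by helper1, helper6, helper11, helper60, helper62, helper88, helper93 and helper94.
-/

set_option autoImplicit false

open FF Pool.Agent.Z15.R

namespace Pool.Agent.Results.MP_1c689d_ag.FibrationsAllDegrees

/-- **The zero-cycles of iterated fibrations in curves with decomposable Jacobian varieties are supported
in dimension `r`.** `K` is the function field of a complex variety `X` in the class `Cl ℂ r`, `Ω` is
an algebraically closed field of infinite transcendence degree over `ℂ`, and `c` is a zero-cycle
of `X × Spec Ω`, supported at points over the generic point of `X`. -/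
theorem result (r : ℕ) {K : Type} [Field K] [Algebra ℂ K] (h : Cl ℂ r K) {Ω : Type} [Field Ω]
    [Algebra ℂ Ω] [IsAlgClosed Ω] (hΩ : Cardinal.aleph0 ≤ Algebra.trdeg ℂ Ω)
    (c : (K →ₐ[ℂ] Ω) →₀ ℤ) : ∃ N : ℕ, 0 < N ∧ N • c ∈ Supp ℂ K Ω r :=
  t_R_MAIN ℂ r K h Ω hΩ c

end Pool.Agent.Results.MP_1c689d_ag.FibrationsAllDegrees
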