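import Pool.Agent.Z15.Q.Main

/-!
# Quotients of abelian varieties by groups of endomorphisms of real type

Let `X` be a complex abelian variety with a polarization, and let `R ⊆ End(X) ⊗ ℚ` be a subalgebra which
is stable under the Rosati involution and of real type: `R ⊗ ℝ` is a product of algebras of real
matrices. Examples:

* `X = ∏ A_j ^ n_j` and `R = ∏ M_{n_j}(ℚ)`, where the `A_j` are arbitrary abelian varieties;
* `R = End(X) ⊗ ℚ`, if `X` has no simple factor whose endomorphism algebra is of Albert type III or IV.

Theorem. Let `e = ∑ x_l r_l^*` be a linear combination, with rational coefficients `x_l`, of the pull-backs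
by elements `r_l` of `R`, and let `i` and `c` be natural numbers. If `e` acts as zero on `H^{i-q,q}(X)` for all
`q < c` then `e H^i(X, ℚ)` is contained in the span of the products of `c` classes of divisors and a
class in `H^{i-2c}(X, ℚ)`.

In particular the generalized Hodge conjecture is true for `e H^i(X, ℚ)`. The case `c = 1` is the
question: if `e` kills the holomorphic `i`-forms then all classes in `e H^i(X, ℚ)` vanish on the
complement of a divisor. This answers the question in all degrees for the following smooth projective
varieties `W` (these consequences are not formalised):

* `W` is a resolution of the singularities of `X / G`, where `G` is any finite group of automorphisms of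
  `X` whose linear parts belong to `R`, for example any finite group of automorphisms of an abelian
  variety without simple factors of type III or IV, or a finite subgroup of `∏ GL_{n_j}(ℤ)` acting on
  `∏ A_j ^ n_j`, `A_j` arbitrary. The restriction of `H^i(W, ℚ)` to a dense open subset is the restriction
  of `H^i(X, ℚ)^G`, `h^{i,0}(W)` is the dimension of the space of `G`-invariant holomorphic `i`-forms on
  `X`, and `e` is the average of the elements `g^*` of `G`.
* `W` is a resolution of the singularities of `C ^ n / G`, where `C` is any curve and `G` is a group of
  permutations of the factors. Up to classes of divisors, the cohomology of `C ^ n` is the part of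
  multidegree at most one of the cohomology of `Jac(C) ^ n`, and the projector to this part is a linear
  combination of pull-backs by diagonal matrices.

No condition on the Hodge group of `X` is necessary. For abelian varieties whose Hodge group is the
Lefschetz group the generalized Hodge conjecture was proved by Hazama; the classes in `e H^i(X, ℚ)` which
are considered here are those for which it suffices to know the Lefschetz group.

The proof. The Hermitian form of the polarization and a basis of the tangent space adapted to `R` give
coordinates `z_{j k α}` such that the elements of `R` act by real matrices on the index `α`. A form of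
degree `i` is an antisymmetric array. Let `K_c` be the space of arrays which are killed by all `c`-fold
contractions with the forms `ω_{j α β} = ∑ k, (dz_{j k α} ∧ dz̄_{j k β} + dz_{j k β} ∧ dz̄_{j k α})`, which are
combinations of classes of divisors; its orthogonal complement is generated by the `c`-fold products of
these forms. The transpose `e'` of `e` maps `K_c` to `K_c`, and `e' a` has no components of type `(i - q, q)`
with `q < c`, as `e` kills them. If `e' a ≠ 0` for some `a ∈ K_c` then one can apply the operators which
replace `dz̄_{j l α}` by `dz_{j k α}` and `dz̄_{j k α}` by `dz_{j l α}`, for all `α`; they commute with `e'`, belong to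
the complexified Lie algebra of the Lefschetz group and preserve `K_c`. So there is an array `b ≠ 0` in
`e' K_c` of type `(i - q, q)`, `q ≥ c`, which is killed by all these operators. But some contraction of `b`
of order less than `c` is not zero and is killed by all contractions, and for such arrays an identity
of Bochner type shows that `q` is the order of this contraction, a contradiction. So `e' K_c = 0`,
i.e. the image of `e` is in the span of the `c`-fold products of the forms `ω_{j α β}`.
-/

set_option autoImplicit false

namespace Pool.Agent.Results.MP_1c689d_ag.RealTypeQuotients

open Pool.Agent.Y90 Pool.Agent.W546.GHC Pool.Agent.Z15.Q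

/-- Let `X` be a complex abelian variety with the polarization `E`, let `R` be an algebra of endomorphisms
of `X` of real type which is stable under the Rosati involution, and let `e = ∑ x_l r_l^*` be a linear
combination of pull-backs by elements `r_l` of `R`; `ρ_l` is the action of `r_l` on the tangent space. If `e`
acts as zero on `H^{i-q,q}(X)` for all `q < c` then `e H^i(X, ℚ)` is contained in the span of the products of
`c` classes of divisors and a rational class of degree `i - 2c`. -/
theorem result (X : AV) (E : X.H → X.H → ℚ) (R : Subalgebra ℚ (Module.End ℚ X.H))
    (hR : RealType X E R) (i c : ℕ) {ι : Type} [Fintype ι] (x : ι → ℚ)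
    (r : ι → Module.End ℚ X.H) (ρ : ι → X.T →ₗ[ℂ] X.T) (hr : ∀ l, r l ∈ R)
    (hρ : ∀ l v, ρ l (X.per v) = X.per (r l v))
    (h : ∀ q < c, ∀ φ ∈ typeForms X.T i (i - q) q,
      ∑ l, (x l : ℂ) • φ.compLinearMap ((ρ l).restrictScalars ℝ) = 0)
    (f : X.H [⋀^Fin i]→ₗ[ℚ] ℚ) :
    ∑ l, x l • f.compLinearMap (r l) ∈ Submodule.span ℚ (divisorProducts X.per i c) :=
  q_MAIN X E R hR i c ι x r ρ hr hρ h f

end Pool.Agent.Results.MP_1c689d_ag.RealTypeQuotients
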